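import Mathlib
import Pool.Agent.Helper442.DR.Defs
import Pool.Agent.Helper442.DR.X2
import Pool.Agent.Helper442.DR.H3
import Pool.Agent.Helper442.DR.Beam

open MeasureTheory Set Metric Real
open scoped ENNReal

namespace Pool.Agent.Results.MP_562430_an.SharpExponent

/-- Three dimensional Euclidean space. -/
abbrev E := EuclideanSpace ℝ (Fin 3)

/-- The unit sphere `S²`. -/
abbrev S := sphere (0 : E) 1

/-- The standard surface measure of `S²` (total mass `4 π`). -/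
noncomputable def sig : Measure S := (volume : Measure E).toSphere

/-- The symbol `Λ(n) = √(n (n-1) (n+2))`. -/
noncomputable def Lam (n : ℕ) : ℝ := √((n : ℝ) * ((n : ℝ) - 1) * ((n : ℝ) + 2))

/-- `f` is a spherical harmonic of degree `n`: the restriction to the sphere of a homogeneous
harmonic polynomial of degree `n` with complex coefficients. -/
def IsSphHarm (n : ℕ) (f : S → ℂ) : Prop :=
  ∃ P : MvPolynomial (Fin 3) ℂ, P.IsHomogeneous n ∧
    ∑ i, MvPolynomial.pderiv i (MvPolynomial.pderiv i P) = 0 ∧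
    ∀ x : S, f x = MvPolynomial.eval (fun i => (((x : E) i : ℝ) : ℂ)) P

/-- The Strichartz estimate `(p, q, s)`, for all functions `f = ∑ n, F n` on the sphere, `F n` a
spherical harmonic of degree `n`, for which the expansion converges absolutely and uniformly
(`‖F n‖_∞ ≤ u n`, `u` summable) and the norm `‖f‖_{H^s}` is finite. Every smooth function on the
sphere is of this form. The solution is `e^{itΛ} f = ∑ n, e^{itΛ(n)} F n`. -/
def Strichartz (p q : ℝ≥0∞) (s : ℝ) : Prop :=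
  ∀ T : ℝ, 0 < T → ∃ C : ℝ, ∀ F : ℕ → S → ℂ, (∀ n, IsSphHarm n (F n)) →
    (∃ u : ℕ → ℝ, Summable u ∧ ∀ n x, ‖F n x‖ ≤ u n) →
    Summable (fun n : ℕ => (1 + (n : ℝ)) ^ (2 * s) * ∫ x, ‖F n x‖ ^ 2 ∂sig) →
    eLpNorm (fun t : ℝ => (eLpNorm (fun x => ∑' n : ℕ,
        Complex.exp (((t * Lam n : ℝ) : ℂ) * Complex.I) * F n x) q sig).toReal) p
        (volume.restrict (Icc 0 T)) ≤
      ENNReal.ofReal (C * √(∑' n : ℕ, (1 + (n : ℝ)) ^ (2 * s) * ∫ x, ‖F n x‖ ^ 2 ∂sig))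

/-- The critical exponent of the `L⁴` estimate: the infimum of all `s` such that `(4, 4, s)` holds. -/
noncomputable def s4 : ℝ := sInf {s : ℝ | Strichartz 4 4 s}

theorem lower (p q : ℝ≥0∞) (s : ℝ) (hp : 1 ≤ p) (hq : 1 ≤ q)
    (hs : s < 3 / 8 * (1 - 2 / q.toReal)) : ¬ Strichartz p q s := by
  intro h
  have h1 : Pool.Agent.Helper442.DR.StrichartzAbs p q s := h
  have h2 := Pool.Agent.Helper442.DR.abs_to_fin p q hp hq s h1
  exact Pool.Agent.Helper442.DRBeam.fails p q hp hq s hs h2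

theorem upper (p : ℝ≥0∞) (q s : ℝ) (hp : 1 ≤ p) (h2 : 2 ≤ q) (h4 : q ≤ 4)
    (hpq : p * ENNReal.ofReal (2 - 4 / q) ≤ 4) (hs : 3 / 8 * (1 - 2 / q) < s) :
    Strichartz p (ENNReal.ofReal q) s := by
  have h := Pool.Agent.Helper442.DR.final3 p q s hp h2 h4 hpq hs
  have hq : (1 : ℝ≥0∞) ≤ ENNReal.ofReal q := by
    rw [← ENNReal.ofReal_one]
    exact ENNReal.ofReal_le_ofReal (by linarith)
  exact Pool.Agent.Helper442.DR.fin_to_abs p (ENNReal.ofReal q) hp hq s h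

theorem upper4 (s : ℝ) (hs : 3 / 16 < s) : Strichartz 4 4 s := by
  have h := upper 4 4 s (by norm_num) (by norm_num) le_rfl (by norm_num) (by norm_num; linarith)
  have e : ENNReal.ofReal 4 = 4 := by simp
  rwa [e] at h

theorem lower4 (s : ℝ) (hs : s < 3 / 16) : ¬ Strichartz 4 4 s := by
  apply lower 4 4 s (by norm_num) (by norm_num)
  have : (4 : ℝ≥0∞).toReal = 4 := by simp
  rw [this]
  norm_num
  linarith

/-- Main result. (1) `s₄ = 3/16`: the estimate `(4, 4, s)` holds for `s > 3/16` and fails for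
`s < 3/16`. (2) For `2 ≤ q ≤ 4` and `1 ≤ p` with `p (2 - 4/q) ≤ 4` (that is, `1/p ≥ 1/2 - 1/q`)
the estimate `(p, q, s)` holds for every `s > (3/8)(1 - 2/q)`. (3) For all `1 ≤ p ≤ ∞`,
`1 ≤ q ≤ ∞` it fails for every `s < (3/8)(1 - 2/q)`. -/
theorem result :
    (∀ s : ℝ, 3 / 16 < s → Strichartz 4 4 s) ∧
    (∀ s : ℝ, s < 3 / 16 → ¬ Strichartz 4 4 s) ∧
    s4 = 3 / 16 ∧
    (∀ (p : ℝ≥0∞) (q s : ℝ), 1 ≤ p → 2 ≤ q → q ≤ 4 → p * ENNReal.ofReal (2 - 4 / q) ≤ 4 →
      3 / 8 * (1 - 2 / q) < s → Strichartz p (ENNReal.ofReal q) s) ∧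
    (∀ (p q : ℝ≥0∞) (s : ℝ), 1 ≤ p → 1 ≤ q → s < 3 / 8 * (1 - 2 / q.toReal) →
      ¬ Strichartz p q s) := by
  refine ⟨upper4, lower4, ?_, upper, fun p q s hp hq hs => lower p q s hp hq hs⟩
  unfold s4
  have hsub : {s : ℝ | Strichartz 4 4 s} ⊆ Ici (3 / 16) := by
    intro s hs
    by_contra h
    exact lower4 s (not_le.1 h) hs
  have hbdd : BddBelow {s : ℝ | Strichartz 4 4 s} := ⟨3 / 16, fun s hs => hsub hs⟩
  apply le_antisymm
  · apply le_of_forall_pos_le_add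
    intro ε hε
    exact csInf_le hbdd (upper4 _ (by linarith))
  · exact le_csInf ⟨1, upper4 1 (by norm_num)⟩ fun s hs => hsub hs

end Pool.Agent.Results.MP_562430_an.SharpExponent
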